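import Pool.Agent.H852R2.DM.Defs
import Pool.Agent.H852R2.DM.S.COND
import Pool.Agent.H852R2.DM.S.LCSUM
import Pool.Agent.H852R2.DM.S.RUNL

/-! Task NEARIND of the project DM (MP_75608d_al). -/

namespace DM852
open RC14 RC852 Finset Filter Equiv

namespace NEARIND

lemma cbrt_le (Z t : ℝ) (hZ : 0 ≤ Z) (ht : 0 < t) : Z ^ (1 / 3 : ℝ) ≤ t + Z / t ^ 2 := by
  set z := Z ^ (1 / 3 : ℝ) with hz
  have hz0 : 0 ≤ z := by positivity
  have hz3 : z ^ 3 = Z := by
    rw [hz, ← Real.rpow_natCast, ← Real.rpow_mul hZ]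
    norm_num
  by_cases h : z ≤ t
  · have : 0 ≤ Z / t ^ 2 := by positivity
    linarith
  · push Not at h
    have : z ≤ Z / t ^ 2 := by
      rw [le_div_iff₀ (by positivity), ← hz3]
      have h2 : t ^ 2 ≤ z ^ 2 := by gcongr
      nlinarith
    linarith

lemma ZH_nonneg {n : ℕ} (H : ℕ) (c T : Perm (Fin n)) : 0 ≤ ZH H c T := by
  unfold ZH; positivity

lemma natcard_eq {Z : Type*} [Fintype Z] (P : Z → Prop) [DecidablePred P] :
    (Nat.card {z : Z // P z} : ℝ) = ∑ z : Z, if P z then (1 : ℝ) else 0 := by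
  rw [Nat.card_eq_fintype_card, Fintype.card_subtype, Finset.sum_boole]

lemma natcard_eq2 {Z : Type*} [Fintype Z] (P Q : Z → Prop) [DecidablePred P] [DecidablePred Q] :
    (Nat.card {z : Z // P z ∧ Q z} : ℝ) = ∑ z : Z with P z, if Q z then (1 : ℝ) else 0 := by
  rw [Nat.card_eq_fintype_card, Fintype.card_subtype, Finset.sum_boole, Finset.filter_filter]

open Classical in
/-- the long cycles -/
noncomputable def W (a : ℝ) {n : ℕ} (π : Perm (Fin n)) : Finset (Perm (Fin n)) :=
  π.cycleFactorsFinset.filter (fun c => InW a n c.support.card)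

lemma W_card (a : ℝ) (ha : 0 < a) (ha1 : a ≤ 1 / 4) {n : ℕ} (hn : 1 ≤ n) (π : Perm (Fin n)) :
    (W a π).card ≤ 1 := by
  rw [Finset.card_le_one]
  intro c hc c' hc'
  simp only [W, Finset.mem_filter] at hc hc'
  exact LCUNIQ a ha ha1 n hn π c c' hc.1 hc'.1 hc.2 hc'.2

/-- a sum of at most one term -/
lemma sum_W_le (a : ℝ) (ha : 0 < a) (ha1 : a ≤ 1 / 4) {n : ℕ} (hn : 1 ≤ n) (π : Perm (Fin n))
    (P : Perm (Fin n) → Prop) [DecidablePred P] (Q : Prop) [Decidable Q]
    (h : ∀ c ∈ π.cycleFactorsFinset, InW a n c.support.card → P c → Q) :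
    (∑ c ∈ W a π, if P c then (1 : ℝ) else 0) ≤ if Q then 1 else 0 := by
  rw [Finset.sum_boole]
  by_cases hQ : Q
  · rw [if_pos hQ]
    have : ((W a π).filter P).card ≤ 1 :=
      (Finset.card_le_card (Finset.filter_subset _ _)).trans (W_card a ha ha1 hn π)
    exact_mod_cast this
  · rw [if_neg hQ]
    have : (W a π).filter P = ∅ := by
      rw [Finset.filter_eq_empty_iff]
      intro c hc hP
      simp only [W, Finset.mem_filter] at hc
      exact hQ (h c hc.1 hc.2 hP)
    rw [this]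
    simp

open Classical in
/-- the sum of `ZH` over the permutations with a long cycle -/
lemma sum_ZH (a : ℝ) (ha : 0 < a) (ha1 : a ≤ 1 / 4) {n : ℕ} (hn : 1 ≤ n) (H : ℕ)
    (T : Perm (Fin n)) (R : ℝ)
    (hR : ∀ p : Fin n, (Nat.card {π : Alt n // ∃ c ∈ (π : Perm (Fin n)).cycleFactorsFinset,
          InW a n c.support.card ∧ Run H c T p} : ℝ) ≤ R * Fintype.card (Alt n)) :
    ∑ π : Alt n, (∑ c ∈ W a (π : Perm (Fin n)), ZH H c T) ≤
      (H / n + 2 * R) * Fintype.card (Alt n) := by
  have hn0 : (0 : ℝ) < n := by exact_mod_cast hn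
  have e1 : ∀ c : Perm (Fin n), ZH H c T =
      H / n + 2 / n * ∑ p : Fin n, if Run H c T p then (1 : ℝ) else 0 := by
    intro c
    unfold ZH
    rw [Finset.sum_boole]
  have e2 : ∀ π : Alt n, (∑ c ∈ W a (π : Perm (Fin n)), ZH H c T) ≤
      H / n + 2 / n * ∑ p : Fin n, if (∃ c ∈ (π : Perm (Fin n)).cycleFactorsFinset,
          InW a n c.support.card ∧ Run H c T p) then (1 : ℝ) else 0 := by
    intro π
    have : (∑ c ∈ W a (π : Perm (Fin n)), ZH H c T) =
        (W a (π : Perm (Fin n))).card * (H / n : ℝ) + 2 / n * ∑ p : Fin n,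
          ∑ c ∈ W a (π : Perm (Fin n)), if Run H c T p then (1 : ℝ) else 0 := by
      rw [Finset.sum_comm (s := Finset.univ), Finset.mul_sum]
      rw [← nsmul_eq_mul, ← Finset.sum_const, ← Finset.sum_add_distrib]
      exact Finset.sum_congr rfl fun c _ => e1 c
    rw [this]
    have h1 : ((W a (π : Perm (Fin n))).card : ℝ) ≤ 1 := by
      exact_mod_cast W_card a ha ha1 hn _
    have h2 : ((W a (π : Perm (Fin n))).card : ℝ) * (H / n : ℝ) ≤ H / n := by
      have : (0 : ℝ) ≤ H / n := by positivity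
      nlinarith
    refine add_le_add h2 ?_
    refine mul_le_mul_of_nonneg_left ?_ (by positivity)
    refine Finset.sum_le_sum fun p _ => ?_
    exact sum_W_le a ha ha1 hn _ _ _ fun c hc hw hr => ⟨c, hc, hw, hr⟩
  calc ∑ π : Alt n, (∑ c ∈ W a (π : Perm (Fin n)), ZH H c T)
      ≤ ∑ π : Alt n, ((H / n : ℝ) + 2 / n * ∑ p : Fin n,
          if (∃ c ∈ (π : Perm (Fin n)).cycleFactorsFinset,
          InW a n c.support.card ∧ Run H c T p) then (1 : ℝ) else 0) :=
        Finset.sum_le_sum fun π _ => e2 π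
    _ = Fintype.card (Alt n) * (H / n : ℝ) + 2 / n * ∑ p : Fin n,
          (Nat.card {π : Alt n // ∃ c ∈ (π : Perm (Fin n)).cycleFactorsFinset,
          InW a n c.support.card ∧ Run H c T p} : ℝ) := by
        rw [Finset.sum_add_distrib, Finset.sum_const, nsmul_eq_mul, ← Finset.mul_sum,
          Finset.sum_comm]
        congr 2
        refine Finset.sum_congr rfl fun p _ => ?_
        rw [natcard_eq]
    _ ≤ Fintype.card (Alt n) * (H / n : ℝ) + 2 / n * ∑ _p : Fin n,
          (R * Fintype.card (Alt n)) := by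
        gcongr with p hp
        exact hR p
    _ = (H / n + 2 * R) * Fintype.card (Alt n) := by
        rw [Finset.sum_const, Finset.card_univ, Fintype.card_fin, nsmul_eq_mul]
        field_simp

end NEARIND

open NEARIND

/-- the events `LC π` and `LC (π T)` are nearly independent if `T` has few fixed points -/
theorem NEARIND (a : ℝ) (ha : 0 < a) (ha1 : a ≤ 1 / 4) (ε : ℝ) (hε : 0 < ε) : ∃ η : ℝ, 0 < η ∧
    ∀ᶠ n : ℕ in atTop, ∀ T : Perm (Fin n), (nfix T : ℝ) ≤ η * n →
      (Nat.card {π : Alt n // LC a (π : Perm (Fin n)) ∧ LC a ((π : Perm (Fin n)) * T)} : ℝ) ≤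
        (pW a n ^ 2 + ε) * Fintype.card (Alt n) := by
  classical
  obtain ⟨C, hC, hCOND⟩ := COND a ha ha1
  -- choose t
  set t : ℝ := ε / (5 * C) with ht
  have ht0 : 0 < t := by positivity
  have hCt : C * t = ε / 5 := by rw [ht]; field_simp
  set D : ℝ := C * (1 + 1 / t ^ 2) with hD
  have hD0 : 0 < D := by positivity
  -- choose H
  have hlim : Tendsto (fun H : ℕ => (1 - a / 2) ^ H) atTop (nhds 0) :=
    tendsto_pow_atTop_nhds_zero_of_lt_one (by linarith) (by linarith)
  obtain ⟨H, hH⟩ := (hlim.eventually_lt_const (show (0 : ℝ) < ε / (10 * D) by positivity)).exists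
  have hH2 : D * (2 * (1 - a / 2) ^ H) ≤ ε / 5 := by
    have : D * (2 * (1 - a / 2) ^ H) ≤ D * (2 * (ε / (10 * D))) := by gcongr
    refine this.trans (le_of_eq ?_)
    field_simp
    norm_num
  obtain ⟨CH, hCH, hRUN⟩ := RUNL a ha ha1 H
  refine ⟨ε / (10 * D * CH), by positivity, ?_⟩
  have hlim2 : Tendsto (fun n : ℕ => (C + D * (H + 2 * CH)) / (n : ℝ)) atTop (nhds 0) :=
    tendsto_const_div_atTop_nhds_zero_nat _
  filter_upwards [hCOND, hRUN, LCSUM a ha ha1, LCPROB a ha ha1, PWLOW a ha ha1,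
    eventually_ge_atTop 1, hlim2.eventually_lt_const (show (0 : ℝ) < ε / 5 by positivity)]
    with n hCOND hRUN hSUM hPROB hPW hn hsmall
  intro T hT
  have hn0 : (0 : ℝ) < n := by exact_mod_cast hn
  have hpW0 : 0 ≤ pW a n := by linarith [hPW.1]
  set A : ℝ := (Fintype.card (Alt n) : ℝ) with hA
  have hA0 : 0 ≤ A := by positivity
  -- step 1: the count is at most a double sum
  have s1 : (Nat.card {π : Alt n // LC a (π : Perm (Fin n)) ∧
      LC a ((π : Perm (Fin n)) * T)} : ℝ) ≤
      ∑ π : Alt n, (∑ c ∈ (π : Perm (Fin n)).cycleFactorsFinset.filter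
          (fun c => InW a n c.support.card),
            (if LC a ((π : Perm (Fin n)) * T) then (1 : ℝ) else 0)) := by
    rw [natcard_eq]
    refine Finset.sum_le_sum fun π _ => ?_
    by_cases h : LC a (π : Perm (Fin n)) ∧ LC a ((π : Perm (Fin n)) * T)
    · rw [if_pos h, if_pos h.2, Finset.sum_const, nsmul_eq_mul, mul_one]
      obtain ⟨c, hc, hw⟩ := h.1
      have : 1 ≤ ((π : Perm (Fin n)).cycleFactorsFinset.filter
          (fun c => InW a n c.support.card)).card :=
        Finset.card_pos.mpr ⟨c, Finset.mem_filter.mpr ⟨hc, hw⟩⟩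
      exact_mod_cast this
    · rw [if_neg h]
      refine Finset.sum_nonneg fun c _ => ?_
      split_ifs <;> norm_num
  -- step 2: condition on the long cycle
  have s2 : ∑ π : Alt n, (∑ c ∈ (π : Perm (Fin n)).cycleFactorsFinset.filter
          (fun c => InW a n c.support.card),
            (if LC a ((π : Perm (Fin n)) * T) then (1 : ℝ) else 0)) ≤
      ∑ π : Alt n, (∑ c ∈ (π : Perm (Fin n)).cycleFactorsFinset.filter
          (fun c => InW a n c.support.card),
            (pW a n + C * ((ZH H c T) ^ (1 / 3 : ℝ) + ZH H c T + 1 / n))) := by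
    rw [hSUM (fun c π => if LC a (π * T) then (1 : ℝ) else 0),
      hSUM (fun c π => pW a n + C * ((ZH H c T) ^ (1 / 3 : ℝ) + ZH H c T + 1 / n))]
    refine Finset.sum_le_sum fun c hc => ?_
    rw [Finset.mem_filter] at hc
    have h := hCOND H T c hc.2.1 hc.2.2
    rw [natcard_eq2] at h
    refine h.trans (le_of_eq ?_)
    rw [Finset.sum_const, nsmul_eq_mul, Nat.card_eq_fintype_card, Fintype.card_subtype]
    ring
  -- step 3: replace the cube root
  have s3 : ∑ π : Alt n, (∑ c ∈ (π : Perm (Fin n)).cycleFactorsFinset.filter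
          (fun c => InW a n c.support.card),
            (pW a n + C * ((ZH H c T) ^ (1 / 3 : ℝ) + ZH H c T + 1 / n))) ≤
      ∑ π : Alt n, (∑ c ∈ W a (π : Perm (Fin n)),
            ((pW a n + C * t + C / n) + D * ZH H c T)) := by
    refine Finset.sum_le_sum fun π _ => ?_
    refine Finset.sum_le_sum fun c _ => ?_
    have h := cbrt_le (ZH H c T) t (ZH_nonneg H c T) ht0
    have h2 : C * ((ZH H c T) ^ (1 / 3 : ℝ)) ≤ C * (t + ZH H c T / t ^ 2) := by gcongr
    have h3 : C * (t + ZH H c T / t ^ 2) + C * ZH H c T = C * t + D * ZH H c T := by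
      rw [hD]; ring
    have h4 : C * (1 / (n : ℝ)) = C / n := by ring
    nlinarith
  -- step 4: sum up
  have s4 : ∑ π : Alt n, (∑ c ∈ W a (π : Perm (Fin n)),
            ((pW a n + C * t + C / n) + D * ZH H c T)) ≤
      (pW a n + C * t + C / n) * (pW a n * A) +
        D * ((H / n + 2 * ((1 - a / 2) ^ H + CH * (1 + nfix T) / n)) * A) := by
    have e : ∑ π : Alt n, (∑ c ∈ W a (π : Perm (Fin n)),
            ((pW a n + C * t + C / n) + D * ZH H c T)) =
        (pW a n + C * t + C / n) * (∑ π : Alt n, ((W a (π : Perm (Fin n))).card : ℝ)) +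
        D * ∑ π : Alt n, (∑ c ∈ W a (π : Perm (Fin n)), ZH H c T) := by
      rw [Finset.mul_sum, Finset.mul_sum, ← Finset.sum_add_distrib]
      refine Finset.sum_congr rfl fun π _ => ?_
      rw [Finset.sum_add_distrib, Finset.sum_const, nsmul_eq_mul, ← Finset.mul_sum]
      ring
    rw [e]
    have h1 : (∑ π : Alt n, ((W a (π : Perm (Fin n))).card : ℝ)) ≤ pW a n * A := by
      rw [← hPROB, natcard_eq]
      refine Finset.sum_le_sum fun π _ => ?_
      have := sum_W_le a ha ha1 hn (π : Perm (Fin n)) (fun _ => True) (LC a (π : Perm (Fin n)))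
        (fun c hc hw _ => ⟨c, hc, hw⟩)
      simpa using this
    have h2 := sum_ZH a ha ha1 hn H T _ (fun p => hRUN T p)
    have h3 : (0 : ℝ) ≤ pW a n + C * t + C / n := by positivity
    exact add_le_add (mul_le_mul_of_nonneg_left h1 h3) (mul_le_mul_of_nonneg_left h2 hD0.le)
  refine (s1.trans (s2.trans (s3.trans s4))).trans ?_
  -- step 5: numbers
  have f1 : (pW a n + C * t + C / n) * pW a n ≤ pW a n ^ 2 + ε / 5 + C / n := by
    rw [hCt]
    have h1 : (0 : ℝ) ≤ C / n := by positivity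
    have h2 : (C / n) * pW a n ≤ C / n := by nlinarith [hPW.2]
    have h3 : (ε / 5) * pW a n ≤ ε / 5 := by nlinarith [hPW.2]
    nlinarith
  have f2 : D * (H / n + 2 * ((1 - a / 2) ^ H + CH * (1 + nfix T) / n)) ≤
      ε / 5 + ε / 5 + D * (H + 2 * CH) / n := by
    have h1 : CH * (1 + (nfix T : ℝ)) / n ≤ CH / n + ε / (10 * D) := by
      have : CH * (1 + (nfix T : ℝ)) / n ≤ CH * (1 + ε / (10 * D * CH) * n) / n := by gcongr
      refine this.trans (le_of_eq ?_)
      field_simp
    have h2 : D * (2 * (ε / (10 * D))) = ε / 5 := by field_simp; norm_num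
    have h3 : D * (H / n + 2 * ((1 - a / 2) ^ H + CH * (1 + nfix T) / n)) ≤
        D * (H / n + 2 * ((1 - a / 2) ^ H + (CH / n + ε / (10 * D)))) := by gcongr
    refine h3.trans ?_
    have h4 : D * (H / n + 2 * ((1 - a / 2) ^ H + (CH / n + ε / (10 * D)))) =
        D * (2 * (1 - a / 2) ^ H) + D * (2 * (ε / (10 * D))) + D * (H + 2 * CH) / n := by
      field_simp
      ring
    rw [h4, h2]
    linarith
  have f3 : C / n + D * (H + 2 * CH) / n ≤ ε / 5 := by
    have : C / n + D * (H + 2 * CH) / n = (C + D * (H + 2 * CH)) / (n : ℝ) := by ring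
    rw [this]
    exact hsmall.le
  calc (pW a n + C * t + C / n) * (pW a n * A) +
        D * ((H / n + 2 * ((1 - a / 2) ^ H + CH * (1 + nfix T) / n)) * A)
      = ((pW a n + C * t + C / n) * pW a n +
        D * (H / n + 2 * ((1 - a / 2) ^ H + CH * (1 + nfix T) / n))) * A := by ring
    _ ≤ (pW a n ^ 2 + ε) * A := by
        refine mul_le_mul_of_nonneg_right ?_ hA0
        linarith

end DM852
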